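import Mathlib

/-!
# The congruence `x ~ x ^ (1 + p)` on the free monoid of rank two has a class that is not regular

if there is an infinite group of exponent `p` generated by two elements.
-/

set_option autoImplicit false

namespace Pool.Agent.Y608.BS

section Monoid

variable {M : Type*} [Monoid M] {p : ℕ}

/-- in a monoid with `x ^ (1 + p) = x`: elements of the local monoid of `e` with a right inverse
have `p`-th power `e` -/
theorem pow_eq_of_right_inv (hM : ∀ x : M, x ^ (1 + p) = x) {e x y : M} (hp : 0 < p)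
    (hxe : x * e = x) (h : x * y = e) : x ^ p = e := by
  have h1 : x ^ (1 + p) * y = x * y := by rw [hM]
  have h2 : x ^ (1 + p) * y = x ^ p * e := by
    rw [add_comm, pow_succ, mul_assoc, h]
  have h3 : x ^ p * e = x ^ p := by
    obtain ⟨k, rfl⟩ := Nat.exists_eq_succ_of_ne_zero hp.ne'
    rw [Nat.succ_eq_add_one, pow_succ, mul_assoc, hxe]
  rw [← h3, ← h2, h1, h]

/-- the elements dividing `e` are closed under multiplication -/
theorem dvd_mul_of_dvd (hM : ∀ x : M, x ^ (1 + p) = x) (hp : 0 < p) {e x y : M}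
    (he : e * e = e) (hx : ∃ u v, e = u * x * v) (hy : ∃ u v, e = u * y * v) :
    ∃ u v, e = u * (x * y) * v := by
  obtain ⟨u, v, h1⟩ := hx
  obtain ⟨u', v', h2⟩ := hy
  obtain ⟨k, rfl⟩ := Nat.exists_eq_succ_of_ne_zero hp.ne'
  set z := v' * u with hz
  have h3 : e = u' * (y * z * x) * v := by
    have : u' * (y * z * x) * v = (u' * y * v') * (u * x * v) := by
      simp only [hz, mul_assoc]
    rw [this, ← h1, ← h2, he]
  have h4 : (y * z * x) = (y * z * x) * ((y * z * x) * (y * z * x) ^ k) := by
    conv_lhs => rw [← hM (y * z * x)]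
    rw [Nat.succ_eq_add_one, add_comm 1, pow_succ', pow_succ']
  refine ⟨u' * y * z, z * x * (y * z * x) ^ k * v, ?_⟩
  calc e = u' * (y * z * x) * v := h3
    _ = u' * ((y * z * x) * ((y * z * x) * (y * z * x) ^ k)) * v := by rw [← h4]
    _ = u' * y * z * (x * y) * (z * x * (y * z * x) ^ k * v) := by
        simp only [mul_assoc]

theorem pow_local (hM : ∀ x : M, x ^ (1 + p) = x) (hp : 0 < p) {e s : M}
    (he : e * e = e) (hs : ∃ u v, e = u * (e * s * e) * v) : (e * s * e) ^ p = e := by
  obtain ⟨u, v, h⟩ := hs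
  set t := e * s * e with ht
  have hte : t * e = t := by simp only [ht, mul_assoc, he]
  have het : e * t = t := by simp only [ht, ← mul_assoc, he]
  set α := e * u * e with hα
  set β := e * v * e with hβ
  have hαe : α * e = α := by simp only [hα, mul_assoc, he]
  have hβe : β * e = β := by simp only [hβ, mul_assoc, he]
  have h1 : α * (t * β) = e := by
    calc α * (t * β) = e * u * (e * t * e) * v * e := by
          simp only [hα, hβ, mul_assoc]
      _ = e * (u * t * v) * e := by rw [het, hte]; simp only [mul_assoc]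
      _ = e := by rw [← h, he, he]
  have h2 : α ^ p = e := pow_eq_of_right_inv hM hp hαe h1
  have heα : e * α = α := by simp only [hα, ← mul_assoc, he]
  have h3 : t * (β * α) = e := by
    obtain ⟨k, hk⟩ := Nat.exists_eq_succ_of_ne_zero hp.ne'
    have h4 : α ^ p = α ^ k * α := by rw [hk, Nat.succ_eq_add_one, pow_succ]
    calc t * (β * α) = e * (t * (β * α)) := by
          rw [← mul_assoc e, het]
      _ = α ^ k * α * (t * (β * α)) := by rw [← h4, h2]
      _ = α ^ k * (α * (t * β)) * α := by simp only [mul_assoc]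
      _ = α ^ k * α := by rw [h1, mul_assoc, heα]
      _ = e := by rw [← h4, h2]
  exact pow_eq_of_right_inv hM hp hte h3

end Monoid

/-- the relation generating the congruence -/
abbrev rel (A : Type) (n m : ℕ) : FreeMonoid A → FreeMonoid A → Prop :=
  fun a b => ∃ x : FreeMonoid A, a = x ^ n ∧ b = x ^ (n + m)

theorem core {p : ℕ} (hp : 0 < p) {G : Type*} [Group G] [Infinite G] (hG : ∀ g : G, g ^ p = 1)
    (g : Fin 2 → G) (hg : Subgroup.closure (Set.range g) = ⊤) :
    ∃ w : FreeMonoid (Fin 2), ¬ ∃ (σ : Type) (_ : Fintype σ) (D : DFA (Fin 2) σ),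
      D.accepts = {v : List (Fin 2) | conGen (rel (Fin 2) 1 p) (FreeMonoid.ofList v) w} := by
  set C := conGen (rel (Fin 2) 1 p) with hC
  set π : FreeMonoid (Fin 2) →* G := FreeMonoid.lift g with hπ
  -- the quotient
  have hcp : ∀ (x : FreeMonoid (Fin 2)) (k : ℕ), ((x ^ k : FreeMonoid (Fin 2)) : C.Quotient) =
      (x : C.Quotient) ^ k := fun x k => map_pow C.mk' x k
  have hM : ∀ x : C.Quotient, x ^ (1 + p) = x := by
    intro x
    induction x using Con.induction_on with
    | H x =>
      have h1 : C (x ^ 1) (x ^ (1 + p)) := ConGen.Rel.of _ _ ⟨x, rfl, rfl⟩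
      have h2 := (Con.eq C).2 h1
      rw [pow_one] at h2
      rw [← hcp]
      exact h2.symm
  have hker : C ≤ Con.ker π := by
    rw [hC, Con.conGen_le]
    intro a b h
    obtain ⟨x, h1, h2⟩ := h
    change π a = π b
    rw [h1, h2, map_pow, map_pow, pow_add, hG, mul_one]
  have hCπ : ∀ a b, C a b → π a = π b := fun a b h => hker h
  have hsurj : Function.Surjective π := by
    have hinv : ∀ x ∈ MonoidHom.mrange π, x⁻¹ ∈ MonoidHom.mrange π := by
      intro x hx
      have : x⁻¹ = x ^ (p - 1) := by
        rw [inv_eq_iff_mul_eq_one, ← pow_succ', Nat.sub_add_cancel hp, hG]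
      rw [this]
      exact Submonoid.pow_mem _ hx _
    let S : Subgroup G := { MonoidHom.mrange π with inv_mem' := fun {x} hx => hinv x hx }
    have hS : S = ⊤ := by
      rw [eq_top_iff, ← hg, Subgroup.closure_le]
      rintro _ ⟨i, rfl⟩
      exact ⟨FreeMonoid.of i, by simp [hπ]⟩
    intro x
    have : x ∈ S := by rw [hS]; trivial
    exact this
  set a : FreeMonoid (Fin 2) := FreeMonoid.of 0
  set b : FreeMonoid (Fin 2) := FreeMonoid.of 1
  set w : FreeMonoid (Fin 2) := (a * b) ^ p with hw
  set e : C.Quotient := (w : C.Quotient) with he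
  have hee : e * e = e := by
    have h1 : ((a * b : FreeMonoid (Fin 2)) : C.Quotient) ^ p = e := by
      rw [he, hw, hcp]
    obtain ⟨k, hk⟩ := Nat.exists_eq_succ_of_ne_zero hp.ne'
    rw [← h1, ← pow_add]
    conv_lhs => rw [show p + p = k + (1 + p) by omega]
    rw [pow_add, hM, ← pow_succ, ← Nat.succ_eq_add_one, ← hk]
  have hdiv : ∀ s : FreeMonoid (Fin 2), ∃ u v : C.Quotient, e = u * (s : C.Quotient) * v := by
    intro s
    have hab : ∃ k, p = k + 1 := ⟨p - 1, by omega⟩
    obtain ⟨k, hk⟩ := hab
    induction s using FreeMonoid.inductionOn' with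
    | one => exact ⟨e, 1, by simp⟩
    | of_mul i s ih =>
      rw [Con.coe_mul]
      refine dvd_mul_of_dvd hM hp hee ?_ ih
      fin_cases i
      · refine ⟨1, ((b * (a * b) ^ k : FreeMonoid (Fin 2)) : C.Quotient), ?_⟩
        rw [one_mul, ← Con.coe_mul, he, hw, hk, pow_succ', mul_assoc]
        rfl
      · refine ⟨(a : C.Quotient), (((a * b) ^ k : FreeMonoid (Fin 2)) : C.Quotient), ?_⟩
        rw [← Con.coe_mul, ← Con.coe_mul, he, hw, hk, pow_succ']
        rfl
  have hpow : ∀ s : FreeMonoid (Fin 2), C ((w * s * w) ^ p) w := by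
    intro s
    rw [← Con.eq, hcp]
    have h1 := hdiv (w * s * w)
    rw [Con.coe_mul, Con.coe_mul] at h1 ⊢
    exact pow_local hM hp hee h1
  refine ⟨w, ?_⟩
  rintro ⟨σ, _, D, hD⟩
  have hacc : ∀ v : FreeMonoid (Fin 2), FreeMonoid.toList v ∈ D.accepts ↔ C v w := by
    intro v
    rw [hD]
    rfl
  have hπw : π w = 1 := by rw [hw, map_pow, hG]
  have hkey : ∀ s s' : FreeMonoid (Fin 2),
      D.eval (FreeMonoid.toList (w * s * w)) = D.eval (FreeMonoid.toList (w * s' * w)) →
      π s = π s' := by
    intro s s' h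
    have h1 : FreeMonoid.toList ((w * s * w) * (w * s * w) ^ (p - 1)) ∈ D.accepts := by
      rw [hacc, ← pow_succ', Nat.sub_add_cancel hp]
      exact hpow s
    have h2 : FreeMonoid.toList ((w * s' * w) * (w * s * w) ^ (p - 1)) ∈ D.accepts := by
      rw [FreeMonoid.toList_mul, DFA.mem_accepts, DFA.eval, DFA.evalFrom_of_append] at h1 ⊢
      have h' : D.evalFrom D.start (FreeMonoid.toList (w * s * w)) =
        D.evalFrom D.start (FreeMonoid.toList (w * s' * w)) := h
      rw [← h']
      exact h1
    rw [hacc] at h2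
    have h3 := hCπ _ _ h2
    rw [map_mul, map_pow, map_mul, map_mul, map_mul, map_mul, hπw] at h3
    simp only [one_mul, mul_one] at h3
    have h4 : π s * π s ^ (p - 1) = 1 := by
      rw [← pow_succ', Nat.sub_add_cancel hp, hG]
    exact mul_right_cancel (h4.trans h3.symm)
  obtain ⟨r, hr⟩ := hsurj.hasRightInverse
  have hinj : Function.Injective
      (fun x : G => D.eval (FreeMonoid.toList (w * r x * w))) := by
    intro x y hxy
    have := hkey _ _ hxy
    rwa [hr x, hr y] at this
  have : Finite G := Finite.of_injective _ hinj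
  exact not_finite G

end Pool.Agent.Y608.BS
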